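import Pool.Agent.Helper22_DEN.Stmt

/-!
# FSP: a cusp form has finite support modulo `Γ(N)` (MP_eadad4_nt)
-/

open scoped BigOperators

namespace Pool.Agent.DEN.H38

variable {r : ℕ} {C : Matrix (Fin r) (Fin r) ℤ} {K : Type} [Field K]

theorem isTor_unique {l : Fin r → ℤ} {g g' : grp C K} (h : IsTor l g) (h' : IsTor l g') : g = g' :=
  grp_ext fun v => by rw [h v, h' v]

/-- FSP -/
theorem fsp (hroot : RootSignStmt) (hbir : BirStmt) (hvan : VanStmt) (hfin : FinStmt)
    (hnrm : NrmStmt) : FspStmt := by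
  classical
  intro r C hC K _ _ N hN f hf
  obtain ⟨-, -, hinj, -⟩ := hroot r C hC
  -- the finite set of `l`
  let S : Set (Fin r → ℤ) := {l | ∀ i, 0 ≤ ip C (al i) l ∧ ip C (al i) l < (N.natDegree : ℤ) - 1}
  have hS : S.Finite := by
    have h1 : (Set.pi Set.univ fun _ : Fin r => Set.Ico (0:ℤ) ((N.natDegree : ℤ) - 1)).Finite :=
      Set.Finite.pi fun _ => Set.finite_Ico _ _
    refine Set.Finite.of_finite_image (f := fun l i => ip C (al i) l) (h1.subset ?_) ?_
    · rintro _ ⟨l, hl, rfl⟩ i _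
      exact hl i
    · intro l _ l' _ h
      exact hinj l l' fun i => congrFun h i
  let Q := (arith C K 1) ⧸ (cong C K 1 N).subgroupOf (arith C K 1)
  have hQ : Finite Q := by
    have h := (hfin r C hC K).2.2 N hN
    have : ((cong C K 1 N).subgroupOf (arith C K 1)).FiniteIndex := ⟨h⟩
    exact Subgroup.finite_quotient_of_finiteIndex
  let gl : (Fin r → ℤ) → grp C K := fun l => if h : ∃ g, IsTor l g then h.choose else 1
  have hgl : ∀ l g, IsTor l g → gl l = g := by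
    intro l g h
    have h' : ∃ g, IsTor (K := K) l g := ⟨g, h⟩
    have : gl l = h'.choose := dif_pos h'
    rw [this]
    exact isTor_unique h'.choose_spec h
  let Φ : (Fin r → ℤ) × Q → MulAction.orbitRel.Quotient (cong C K 1 N) (XX C K) :=
    fun p => Quotient.mk _ ((p.2.out : arith C K 1).1 • pt (gl p.1))
  have hfinite : (Φ '' (S ×ˢ Set.univ)).Finite := (hS.prod Set.finite_univ).image _
  refine hfinite.subset ?_
  intro o ho
  obtain ⟨γ, hγ, l, g, hg, hl, hx⟩ := hbir r C hC K o.out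
  have ho' : f o.out ≠ 0 := ho
  refine ⟨(l, (QuotientGroup.mk (⟨γ, hγ⟩ : arith C K 1) : Q)), ⟨?_, Set.mem_univ _⟩, ?_⟩
  · intro i
    refine ⟨hl i, ?_⟩
    by_contra hcon
    push Not at hcon
    exact ho' (by rw [hx]; exact hvan r C hC K N hN f hf γ hγ l g hg hl i hcon)
  · have e1 : o = Quotient.mk _ o.out := (Quotient.out_eq o).symm
    show (Quotient.mk _ (((QuotientGroup.mk (⟨γ, hγ⟩ : arith C K 1) : Q).out : arith C K 1).1 •
      pt (gl l))) = o
    rw [e1, hx, hgl l g hg]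
    apply Quotient.sound
    show _ ∈ MulAction.orbit _ _
    set γ₀ : arith C K 1 := (QuotientGroup.mk (⟨γ, hγ⟩ : arith C K 1) : Q).out with hγ₀
    have h1 : (QuotientGroup.mk γ₀ : Q) = QuotientGroup.mk (⟨γ, hγ⟩ : arith C K 1) :=
      Quotient.out_eq _
    rw [QuotientGroup.eq, Subgroup.mem_subgroupOf] at h1
    -- `δ = γ₀⁻¹ γ` in `cong`
    have h2 : (γ₀.1)⁻¹ * γ ∈ cong C K 1 N := h1
    have h3 := (hnrm r C hC K 1 N one_ne_zero hN isCoprime_one_left).1 γ₀.1 γ₀.2 _ h2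
    have h4 := inv_mem h3
    refine ⟨⟨_, h4⟩, ?_⟩
    show (γ₀.1 * ((γ₀.1)⁻¹ * γ) * (γ₀.1)⁻¹)⁻¹ • γ • pt g = γ₀.1 • pt g
    rw [smul_smul]
    congr 1
    group

end Pool.Agent.DEN.H38
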