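import Pool.Agent.Helper22_DEN.Stmt

/-!
# STL: the stabilizer of `t^l` in `Γ` is large (MP_eadad4_nt)
-/

open scoped BigOperators

namespace Pool.Agent.DEN.H38

variable {r : ℕ} {C : Matrix (Fin r) (Fin r) ℤ} {K : Type} [Field K]

/-- a root has a coordinate which does not vanish in `F` -/
theorem root_ne_zero (hroot : RootSignStmt) (hC : SimplyLaced C) (β : Rt C) :
    ∃ i, ((β.1 i : ℤ) : FF K) ≠ 0 := by
  by_contra hcon
  push Not at hcon
  have h0 : ∀ i, (ringChar (FF K) : ℤ) ∣ β.1 i := fun i =>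
    (CharP.intCast_eq_zero_iff (FF K) (ringChar (FF K)) _).mp (hcon i)
  choose b hb using h0
  have hβ : β.1 = (ringChar (FF K) : ℤ) • b := by
    funext i; rw [hb i]; rfl
  obtain ⟨m, hm⟩ := (hroot r C hC).2.1 b
  have h2 := β.2
  rw [hβ, ip_smul_left, ip_smul_right, hm] at h2
  have h3 : (ringChar (FF K) : ℤ) ∣ 1 := ⟨(ringChar (FF K) : ℤ) * m, by linarith⟩
  have h4 := (CharP.intCast_eq_zero_iff (FF K) (ringChar (FF K)) 1).mpr h3
  simp at h4

/-- the product of the root elements over a list -/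
noncomputable def prodL (hC : SimplyLaced C) (a : Rt C → FF K) (L : List (Rt C)) : grp C K :=
  (L.map fun β => xg hC β (a β)).prod

theorem prodL_mem_Ul (hC : SimplyLaced C) (a : Rt C → FF K) (l : Fin r → ℤ) (k : ℕ)
    (L : List (Rt C)) (hL : ∀ β ∈ L, 0 < ip C β.1 l ∧ (k : ℤ) ≤ ht β) :
    prodL hC a L ∈ Ul C K l k := by
  apply Subgroup.list_prod_mem
  intro x hx
  rw [List.mem_map] at hx
  obtain ⟨β, hβ, rfl⟩ := hx
  exact Subgroup.subset_closure ⟨β, a β, (hL β hβ).1, (hL β hβ).2, fun v => rfl⟩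

theorem xg_EE (hC : SimplyLaced C) (β γ : Rt C) (a : FF K) (i : Fin r) :
    ((xg hC γ a).1 (EE β.neg)).1 i = if γ = β then -(a * ((β.1 i : ℤ) : FF K)) else 0 := by
  classical
  rw [xg_apply, rootMap_fst]
  show (0 : FF K) - a * (if γ.neg = β.neg then 1 else 0) * _ = _
  have : γ.neg = β.neg ↔ γ = β := by
    constructor
    · intro h
      rw [← Rt.neg_neg γ, h, Rt.neg_neg]
    · rintro rfl; rfl
  by_cases h : γ = β
  · subst h; simp
  · rw [if_neg h, if_neg (fun h' => h (this.mp h'))]; ring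

/-- the Cartan component of a product not involving `β` -/
theorem prodL_EE (hcar : CarStmt) (hC : SimplyLaced C) (a : Rt C → FF K) (l : Fin r → ℤ)
    (hl : IsDom C l) (k : ℕ) (β : Rt C) (hβ : 0 < ip C β.1 l) (hk : ht β = k)
    (L : List (Rt C)) (hL : ∀ γ ∈ L, 0 < ip C γ.1 l ∧ (k : ℤ) ≤ ht γ) (hβL : β ∉ L) :
    ((prodL hC a L).1 (EE β.neg)).1 = 0 := by
  induction L with
  | nil => rfl
  | cons γ L ih =>
    rw [List.mem_cons, not_or] at hβL
    have h1 := ih (fun δ hδ => hL δ (List.mem_cons_of_mem _ hδ)) hβL.2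
    have h2 := (hcar r C hC K l hl k).2.2 (xg hC γ (a γ))
      (Subgroup.subset_closure ⟨γ, a γ, (hL γ (by simp)).1,
        le_trans (by positivity) (hL γ (by simp)).2, fun v => rfl⟩)
      (prodL hC a L) (prodL_mem_Ul hC a l k L fun δ hδ => hL δ (List.mem_cons_of_mem _ hδ))
      β hβ hk
    have h3 : prodL hC a (γ :: L) = xg hC γ (a γ) * prodL hC a L := by
      simp [prodL]
    rw [h3, h2, h1, add_zero]
    funext i
    rw [xg_EE, if_neg (fun h => hβL.1 h.symm)]
    rfl

/-- the product over a list sorted by heights determines the coefficients -/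
theorem prodL_inj (hcar : CarStmt) (hroot : RootSignStmt) (hC : SimplyLaced C)
    (a a' : Rt C → FF K) (l : Fin r → ℤ) (hl : IsDom C l) (L : List (Rt C)) (hnd : L.Nodup)
    (hs : L.Pairwise fun β γ => ht β ≤ ht γ) (hL : ∀ γ ∈ L, 0 < ip C γ.1 l ∧ 0 ≤ ht γ)
    (h : prodL hC a L = prodL hC a' L) : ∀ β ∈ L, a β = a' β := by
  induction L with
  | nil => simp
  | cons γ L ih =>
    rw [List.pairwise_cons] at hs
    rw [List.nodup_cons] at hnd
    obtain ⟨k, hk⟩ : ∃ k : ℕ, ht γ = k := ⟨(ht γ).toNat, (Int.toNat_of_nonneg (hL γ (by simp)).2).symm⟩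
    have hL' : ∀ δ ∈ L, 0 < ip C δ.1 l ∧ (k : ℤ) ≤ ht δ := fun δ hδ =>
      ⟨(hL δ (List.mem_cons_of_mem _ hδ)).1, by rw [← hk]; exact hs.1 δ hδ⟩
    have e : ∀ a : Rt C → FF K, prodL hC a (γ :: L) = xg hC γ (a γ) * prodL hC a L := by
      intro a; simp [prodL]
    have key : ∀ a : Rt C → FF K, ((prodL hC a (γ :: L)).1 (EE γ.neg)).1 =
        fun i => -(a γ * ((γ.1 i : ℤ) : FF K)) := by
      intro a
      have h2 := (hcar r C hC K l hl k).2.2 (xg hC γ (a γ))
        (Subgroup.subset_closure ⟨γ, a γ, (hL γ (by simp)).1,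
          by simpa using (hL γ (by simp)).2, fun v => rfl⟩)
        (prodL hC a L) (prodL_mem_Ul hC a l k L hL') γ (hL γ (by simp)).1 hk
      rw [e, h2, prodL_EE hcar hC a l hl k γ (hL γ (by simp)).1 hk L hL' hnd.1, add_zero]
      funext i
      rw [xg_EE, if_pos rfl]
    obtain ⟨i, hi⟩ := root_ne_zero (K := K) hroot hC γ
    have h1 : a γ = a' γ := by
      have h2 := congrFun ((key a).symm.trans ((congrArg (fun g : grp C K =>
        (g.1 (EE γ.neg)).1) h).trans (key a'))) i
      have h3 := neg_injective h2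
      exact mul_right_cancel₀ hi h3
    have h4 : prodL hC a L = prodL hC a' L := by
      rw [e, e, h1] at h
      exact mul_left_cancel h
    intro β hβ
    rcases List.mem_cons.mp hβ with rfl | hβ
    · exact h1
    · exact ih hnd.2 hs.2 (fun δ hδ => hL δ (List.mem_cons_of_mem _ hδ)) h4 β hβ

theorem exists_sorted {α : Type} [Finite α] (p : α → Prop) (f : α → ℤ) :
    ∃ L : List α, L.Nodup ∧ (∀ x, x ∈ L ↔ p x) ∧ L.Pairwise fun x y => f x ≤ f y := by
  classical
  have := Fintype.ofFinite α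
  let L0 := (Finset.univ.filter p).toList
  refine ⟨L0.insertionSort (fun x y => f x ≤ f y), ?_, ?_, ?_⟩
  · exact (List.perm_insertionSort _ L0).nodup_iff.mpr (Finset.nodup_toList _)
  · intro x
    rw [(List.perm_insertionSort _ L0).mem_iff, Finset.mem_toList, Finset.mem_filter]
    simp
  · have : Std.Total (fun x y : α => f x ≤ f y) := ⟨fun x y => le_total _ _⟩
    have : IsTrans α (fun x y : α => f x ≤ f y) := ⟨fun x y z h1 h2 => le_trans h1 h2⟩
    exact List.pairwise_insertionSort (fun x y : α => f x ≤ f y) L0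

/-- STL -/
theorem stl (hcar : CarStmt) (hmax : MaxStmt) (hfld1 : Fld1Stmt) (hfld2 : Fld2Stmt)
    (hfin : FinStmt) (hrf : RootFinStmt) (hroot : RootSignStmt) : StlStmt := by
  classical
  intro r C hC K _ _ l g hg hl
  have := Fintype.ofFinite K
  have := hrf r C hC
  have := Fintype.ofFinite (Rt C)
  obtain ⟨hsign, -, -, hpair⟩ := hroot r C hC
  obtain ⟨f1, -, -, -, f5, -⟩ := hfld1 K
  obtain ⟨p1, p2, -, -, p5⟩ := hfld2 K
  have hpos : ∀ β : Rt C, 0 < ip C β.1 l → 0 ≤ ht β := by
    intro β hβ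
    rcases hsign β with h | h
    · exact Finset.sum_nonneg fun i _ => h i
    · exfalso
      rcases Nat.eq_zero_or_pos r with hr | hr
      · subst hr
        have : ip C β.1 l = 0 := by simp [ip]
        omega
      · have h1 := hpair β.neg.1 l hl h ⟨0, hr⟩
        have h2 := mul_nonneg (h ⟨0, hr⟩) (hl ⟨0, hr⟩)
        rw [Rt.neg_val, ip_neg_left] at h1
        rw [Rt.neg_val] at h2
        omega
  obtain ⟨L, hnd, hmem, hs⟩ := exists_sorted (fun β : Rt C => 0 < ip C β.1 l) ht
  let n : Rt C → ℕ := fun β => (ip C β.1 l).toNat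
  let T : Type := ∀ β : Rt C, Polynomial.degreeLT K (n β)
  have hT : Nat.card T = Nat.card K ^ dep C l := by
    have h1 : ∀ β, Nat.card (Polynomial.degreeLT K (n β)) = Nat.card K ^ n β := by
      intro β
      rw [Nat.card_congr (Polynomial.degreeLTEquiv K (n β)).toEquiv]
      simp
    rw [Nat.card_pi]
    simp only [h1]
    rw [Finset.prod_pow_eq_pow_sum, dep, finsum_eq_sum_of_fintype]
  rw [← hT]
  let A : T → Rt C → FF K := fun c β => polyL K (c β).1
  have hfix : ∀ c : T, prodL hC (A c) L • pt g = pt g := by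
    intro c
    have : ∀ L : List (Rt C), (∀ β ∈ L, 0 < ip C β.1 l) → prodL hC (A c) L • pt g = pt g := by
      intro L
      induction L with
      | nil => intro _; simp [prodL]
      | cons β L ih =>
        intro hL
        have e : prodL hC (A c) (β :: L) = xg hC β (A c β) * prodL hC (A c) L := by
          simp [prodL]
        rw [e, mul_smul, ih fun δ hδ => hL δ (List.mem_cons_of_mem _ hδ)]
        apply (hmax r C hC K).2.2.2 l g hg β
        have hβ := hL β (by simp)
        by_cases h0 : (c β).1 = 0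
        · show polyL K (c β).1 ∈ _
          rw [h0, map_zero]; exact f1 _
        · refine f5 _ _ _ ?_ (p2 (c β).1)
          have h2 := (c β).2
          rw [Polynomial.mem_degreeLT, Polynomial.degree_eq_natDegree h0] at h2
          have h3 : (c β).1.natDegree < n β := by exact_mod_cast h2
          show ((c β).1.natDegree : ℤ) ≤ ip C β.1 l
          have h4 : (n β : ℤ) = ip C β.1 l := Int.toNat_of_nonneg hβ.le
          omega
    exact this L fun β hβ => (hmem β).mp hβ
  have harith : ∀ c : T, prodL hC (A c) L ∈ arith C K 1 := by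
    intro c
    apply Subgroup.list_prod_mem
    intro x hx
    rw [List.mem_map] at hx
    obtain ⟨β, hβ, rfl⟩ := hx
    apply xg_mem_arith
    have : A c β ∈ (ringA K 1 : Set (FF K)) := by rw [p5]; exact ⟨_, rfl⟩
    exact this
  have := (hfin r C hC K).1 (pt g)
  apply Nat.card_le_card_of_injective
    (fun c : T => (⟨⟨prodL hC (A c) L, harith c⟩, hfix c⟩ :
      MulAction.stabilizer (arith C K 1) (pt g)))
  intro c c' h
  have h1 : prodL hC (A c) L = prodL hC (A c') L := by
    have := congrArg (fun x : MulAction.stabilizer (arith C K 1) (pt g) => x.1.1) h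
    exact this
  have h2 := prodL_inj hcar hroot hC (A c) (A c') l hl L hnd hs
    (fun γ hγ => ⟨(hmem γ).mp hγ, hpos γ ((hmem γ).mp hγ)⟩) h1
  funext β
  by_cases hβ : 0 < ip C β.1 l
  · have h3 := h2 β ((hmem β).mpr hβ)
    exact Subtype.ext (p1 h3)
  · have h4 : n β = 0 := by
      show (ip C β.1 l).toNat = 0
      omega
    have h7 : ∀ m : ℕ, m = 0 → ∀ x : Polynomial.degreeLT K m, x = 0 := by
      rintro m rfl x
      have h6 : (x : Polynomial K).degree < ((0 : ℕ) : WithBot ℕ) :=
        Polynomial.mem_degreeLT.mp x.2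
      apply Subtype.ext
      rw [Submodule.coe_zero, ← Polynomial.degree_eq_bot]
      exact Nat.WithBot.lt_zero_iff.mp (by exact_mod_cast h6)
    have h5 := h7 (n β) h4
    rw [h5 (c β), h5 (c' β)]

end Pool.Agent.DEN.H38
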